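import Pool.Agent.U180.NG.Stm

/-!
# Project NG, package LOWA: tails of a sum of independent centred indicator functions

The method of moments: `E T = 0`, `E T^2 = s^2`, `E T^4 ≤ 4 s^4` for the sum `T`, and an inequality between
polynomials and an indicator function.
-/

set_option autoImplicit false

open MeasureTheory ProbabilityTheory

namespace Pool.Agent.U408.NG

open Pool.Agent.U180.NG

lemma integ {Ω : Type} [MeasurableSpace Ω] (P : Measure Ω) [IsProbabilityMeasure P] {f : Ω → ℝ}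
    (hf : Measurable f) (C : ℝ) (hC : ∀ ω, |f ω| ≤ C) : Integrable f P :=
  Integrable.of_bound hf.aestronglyMeasurable C (Filter.Eventually.of_forall fun ω => by
    rw [Real.norm_eq_abs]; exact hC ω)

/-- a polynomial below an indicator function -/
lemma pw_ge (y : ℝ) : 10 * y ^ 2 - y ^ 4 + 16 * y - 4 ≤ 128 := by
  nlinarith [sq_nonneg (y ^ 2 - 7), sq_nonneg (y - 2)]

lemma pw_lt {y : ℝ} (h : y < 1 / 8) : 10 * y ^ 2 - y ^ 4 + 16 * y - 4 ≤ 0 := by
  rcases le_or_gt 0 y with h0 | h0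
  · nlinarith [pow_nonneg h0 4, mul_nonneg h0 (by linarith : (0 : ℝ) ≤ 1 / 8 - y)]
  · have h1 : 0 ≤ (-y) * (-y - 2) ^ 2 * (-y + 4) := by
      apply mul_nonneg (mul_nonneg (by linarith) (sq_nonneg _)) (by linarith)
    nlinarith [sq_nonneg y]

lemma tail {Ω : Type} [MeasurableSpace Ω] (P : Measure Ω) [IsProbabilityMeasure P] (T : Ω → ℝ) (B s : ℝ)
    (hT : Measurable T) (hB : ∀ ω, |T ω| ≤ B) (hs : 0 < s) (h1 : ∫ ω, T ω ∂P = 0)
    (h2 : ∫ ω, T ω ^ 2 ∂P = s ^ 2) (h4 : ∫ ω, T ω ^ 4 ∂P ≤ 4 * s ^ 4) :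
    (1 / 64 : ℝ) ≤ P.real {ω | s / 8 ≤ T ω} := by
  set A : Set Ω := {ω | s / 8 ≤ T ω} with hA
  have hAm : MeasurableSet A := measurableSet_le measurable_const hT
  have hB' : ∀ (n : ℕ) ω, |T ω ^ n| ≤ B ^ n := fun n ω => by
    rw [abs_pow]; exact pow_le_pow_left₀ (abs_nonneg _) (hB ω) n
  have i1 : Integrable T P := integ P hT B hB
  have i2 : Integrable (fun ω => T ω ^ 2) P := integ P (hT.pow_const 2) _ (hB' 2)
  have i4 : Integrable (fun ω => T ω ^ 4) P := integ P (hT.pow_const 4) _ (hB' 4)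
  have hpt : ∀ ω, 10 / s ^ 2 * T ω ^ 2 - 1 / s ^ 4 * T ω ^ 4 + 16 / s * T ω - 4 ≤
      128 * A.indicator (fun _ => (1 : ℝ)) ω := by
    intro ω
    have e : 10 / s ^ 2 * T ω ^ 2 - 1 / s ^ 4 * T ω ^ 4 + 16 / s * T ω - 4 =
        10 * (T ω / s) ^ 2 - (T ω / s) ^ 4 + 16 * (T ω / s) - 4 := by
      field_simp
    rw [e]
    by_cases hω : ω ∈ A
    · rw [Set.indicator_of_mem hω, mul_one]
      exact pw_ge _
    · rw [Set.indicator_of_notMem hω, mul_zero]
      apply pw_lt
      have h5 : T ω < s / 8 := not_le.1 hω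
      rw [div_lt_iff₀ hs]
      linarith
  have hint : ∫ ω, (10 / s ^ 2 * T ω ^ 2 - 1 / s ^ 4 * T ω ^ 4 + 16 / s * T ω - 4) ∂P ≤
      ∫ ω, 128 * A.indicator (fun _ => (1 : ℝ)) ω ∂P := by
    refine integral_mono ?_ ?_ hpt
    · exact (((i2.const_mul _).sub (i4.const_mul _)).add (i1.const_mul _)).sub (integrable_const _)
    · exact ((integrable_const (1 : ℝ)).indicator hAm).const_mul _
  have e1 : ∫ ω, 128 * A.indicator (fun _ => (1 : ℝ)) ω ∂P = 128 * P.real A := by
    rw [integral_const_mul, integral_indicator_const _ hAm, smul_eq_mul, mul_one]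
  have e2 : ∫ ω, (10 / s ^ 2 * T ω ^ 2 - 1 / s ^ 4 * T ω ^ 4 + 16 / s * T ω - 4) ∂P =
      10 / s ^ 2 * (∫ ω, T ω ^ 2 ∂P) - 1 / s ^ 4 * (∫ ω, T ω ^ 4 ∂P) + 16 / s * (∫ ω, T ω ∂P) - 4 := by
    have f1 : Integrable (fun ω => 10 / s ^ 2 * T ω ^ 2) P := i2.const_mul _
    have f2 : Integrable (fun ω => 1 / s ^ 4 * T ω ^ 4) P := i4.const_mul _
    have f3 : Integrable (fun ω => 16 / s * T ω) P := i1.const_mul _
    have g1 : Integrable (fun ω => 10 / s ^ 2 * T ω ^ 2 - 1 / s ^ 4 * T ω ^ 4) P := f1.sub f2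
    have g2 : Integrable (fun ω => 10 / s ^ 2 * T ω ^ 2 - 1 / s ^ 4 * T ω ^ 4 + 16 / s * T ω) P :=
      g1.add f3
    rw [integral_sub g2 (integrable_const _), integral_add g1 f3,
      integral_sub f1 f2, integral_const_mul, integral_const_mul, integral_const_mul, integral_const]
    simp
  rw [e1, e2, h1, h2] at hint
  have h5 : 1 / s ^ 4 * (∫ ω, T ω ^ 4 ∂P) ≤ 4 := by
    rw [one_div, inv_mul_le_iff₀ (by positivity)]
    linarith
  have h6 : 10 / s ^ 2 * s ^ 2 = 10 := by field_simp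
  rw [h6] at hint
  linarith

/-- moments of a sum of independent bounded centred variables -/
lemma moments {Ω ι : Type} [MeasurableSpace Ω] (P : Measure Ω) [IsProbabilityMeasure P] (Y : ι → Ω → ℝ)
    (v : ι → ℝ) (hm : ∀ i, Measurable (Y i)) (hi : iIndepFun Y P) (hb : ∀ i ω, |Y i ω| ≤ 1)
    (h0 : ∀ i, ∫ ω, Y i ω ∂P = 0) (h2 : ∀ i, ∫ ω, Y i ω ^ 2 ∂P = v i) (S : Finset ι) :
    ∫ ω, (∑ i ∈ S, Y i ω) ∂P = 0 ∧ ∫ ω, (∑ i ∈ S, Y i ω) ^ 2 ∂P = ∑ i ∈ S, v i ∧
      ∫ ω, (∑ i ∈ S, Y i ω) ^ 4 ∂P ≤ 3 * (∑ i ∈ S, v i) ^ 2 + ∑ i ∈ S, v i := by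
  classical
  induction S using Finset.induction_on with
  | empty => simp
  | insert a S ha ih =>
    obtain ⟨ih1, ih2, ih4⟩ := ih
    set T : Ω → ℝ := fun ω => ∑ i ∈ S, Y i ω with hT
    have hTm : Measurable T := Finset.measurable_sum S fun i _ => hm i
    have hTb : ∀ ω, |T ω| ≤ S.card := fun ω => by
      calc |T ω| ≤ ∑ i ∈ S, |Y i ω| := Finset.abs_sum_le_sum_abs _ _
        _ ≤ ∑ _i ∈ S, (1 : ℝ) := Finset.sum_le_sum fun i _ => hb i ω
        _ = S.card := by simp
    have hind : IndepFun T (Y a) P := by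
      have h := hi.indepFun_finsetSum_of_notMem hm ha
      have e : (∑ j ∈ S, Y j) = T := by
        funext ω
        rw [hT, Finset.sum_apply]
      rwa [e] at h
    have hprod : ∀ p q : ℕ, ∫ ω, T ω ^ p * Y a ω ^ q ∂P = (∫ ω, T ω ^ p ∂P) * ∫ ω, Y a ω ^ q ∂P := by
      intro p q
      exact hind.integral_fun_comp_mul_comp (f := fun x : ℝ => x ^ p) (g := fun x : ℝ => x ^ q)
        hTm.aemeasurable (hm a).aemeasurable (by fun_prop) (by fun_prop)
    have hint : ∀ p q : ℕ, Integrable (fun ω => T ω ^ p * Y a ω ^ q) P := by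
      intro p q
      refine integ P ((hTm.pow_const p).mul ((hm a).pow_const q)) ((S.card : ℝ) ^ p * 1 ^ q) fun ω => ?_
      rw [abs_mul, abs_pow, abs_pow]
      exact mul_le_mul (pow_le_pow_left₀ (abs_nonneg _) (hTb ω) p)
        (pow_le_pow_left₀ (abs_nonneg _) (hb a ω) q) (by positivity) (by positivity)
    have hY4 : ∫ ω, Y a ω ^ 4 ∂P ≤ v a := by
      rw [← h2 a]
      have j4 : Integrable (fun ω => Y a ω ^ 4) P := by simpa using hint 0 4
      have j2 : Integrable (fun ω => Y a ω ^ 2) P := by simpa using hint 0 2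
      refine integral_mono j4 j2 fun ω => ?_
      have h3 := abs_le.1 (hb a ω)
      have h4 : Y a ω ^ 2 ≤ 1 := by nlinarith
      show Y a ω ^ 4 ≤ Y a ω ^ 2
      nlinarith [sq_nonneg (Y a ω)]
    have e0 : ∀ ω, ∑ i ∈ insert a S, Y i ω = T ω + Y a ω := fun ω => by
      rw [Finset.sum_insert ha, hT, add_comm]
    have m1 := hprod 1 1
    have m12 := hprod 1 3
    have m31 := hprod 3 1
    have m22 := hprod 2 2
    simp only [pow_one] at m1 m12 m31
    rw [h0 a, mul_zero] at m1 m31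
    rw [ih1, zero_mul] at m12
    rw [ih2, h2 a] at m22
    rw [Finset.sum_insert ha]
    simp only [e0]
    refine ⟨?_, ?_, ?_⟩
    · have i1 : Integrable T P := by simpa using hint 1 0
      have i2 : Integrable (Y a) P := by simpa using hint 0 1
      rw [integral_add i1 i2, ih1, h0 a, add_zero]
    · have i1 : Integrable (fun ω => T ω ^ 2) P := by simpa using hint 2 0
      have i2 : Integrable (fun ω => T ω * Y a ω) P := by simpa using hint 1 1
      have i3 : Integrable (fun ω => Y a ω ^ 2) P := by simpa using hint 0 2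
      have e : ∀ ω, (T ω + Y a ω) ^ 2 = T ω ^ 2 + 2 * (T ω * Y a ω) + Y a ω ^ 2 := fun ω => by ring
      simp only [e]
      have g1 : Integrable (fun ω => T ω ^ 2 + 2 * (T ω * Y a ω)) P := i1.add (i2.const_mul 2)
      rw [integral_add g1 i3, integral_add i1 (i2.const_mul 2),
        integral_const_mul, m1, ih2, h2 a]
      ring
    · have i1 : Integrable (fun ω => T ω ^ 4) P := by simpa using hint 4 0
      have i2 : Integrable (fun ω => T ω ^ 3 * Y a ω) P := by simpa using hint 3 1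
      have i3 : Integrable (fun ω => T ω ^ 2 * Y a ω ^ 2) P := hint 2 2
      have i4 : Integrable (fun ω => T ω * Y a ω ^ 3) P := by simpa using hint 1 3
      have i5 : Integrable (fun ω => Y a ω ^ 4) P := by simpa using hint 0 4
      have e : ∀ ω, (T ω + Y a ω) ^ 4 = T ω ^ 4 + 4 * (T ω ^ 3 * Y a ω) +
          6 * (T ω ^ 2 * Y a ω ^ 2) + 4 * (T ω * Y a ω ^ 3) + Y a ω ^ 4 := fun ω => by ring
      simp only [e]
      have g1 : Integrable (fun ω => T ω ^ 4 + 4 * (T ω ^ 3 * Y a ω)) P := i1.add (i2.const_mul 4)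
      have g2 : Integrable (fun ω => T ω ^ 4 + 4 * (T ω ^ 3 * Y a ω) +
          6 * (T ω ^ 2 * Y a ω ^ 2)) P := g1.add (i3.const_mul 6)
      have g3 : Integrable (fun ω => T ω ^ 4 + 4 * (T ω ^ 3 * Y a ω) +
          6 * (T ω ^ 2 * Y a ω ^ 2) + 4 * (T ω * Y a ω ^ 3)) P := g2.add (i4.const_mul 4)
      rw [integral_add g3 i5, integral_add g2 (i4.const_mul 4), integral_add g1 (i3.const_mul 6),
        integral_add i1 (i2.const_mul 4), integral_const_mul, integral_const_mul, integral_const_mul,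
        m31, m22, m12]
      nlinarith [sq_nonneg (v a)]

/-- **LOWA.** -/
theorem t_LOWA : S_LOWA := by
  intro Ω ι _ P hP X S hm hi h01 hv
  set p : ι → ℝ := fun i => ∫ ω, X i ω ∂P with hp
  have hXi : ∀ i, Integrable (X i) P := fun i => integ P (hm i) 1 fun ω => by
    rcases h01 i ω with h | h <;> rw [h] <;> norm_num
  have hp0 : ∀ i, 0 ≤ p i := fun i => integral_nonneg fun ω => by
    rcases h01 i ω with h | h <;> rw [h] <;> norm_num
  have hp1 : ∀ i, p i ≤ 1 := fun i => by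
    have h : p i ≤ ∫ _ω, (1 : ℝ) ∂P := integral_mono (hXi i) (integrable_const _) fun ω => by
      rcases h01 i ω with h | h <;> rw [h] <;> norm_num
    simpa using h
  set Y : ι → Ω → ℝ := fun i ω => X i ω - p i with hY
  have hYm : ∀ i, Measurable (Y i) := fun i => (hm i).sub_const _
  have hYi : iIndepFun Y P := hi.comp (fun i x => x - p i) fun i => measurable_id.sub_const _
  have hYb : ∀ i ω, |Y i ω| ≤ 1 := fun i ω => by
    have h1 := hp0 i
    have h2 := hp1 i
    rw [abs_le]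
    rcases h01 i ω with h | h <;> simp only [hY, h] <;> constructor <;> linarith
  have hY0 : ∀ i, ∫ ω, Y i ω ∂P = 0 := fun i => by
    simp only [hY]
    rw [integral_sub (hXi i) (integrable_const _), integral_const]
    simp [hp]
  have hY2 : ∀ i, ∫ ω, Y i ω ^ 2 ∂P = p i * (1 - p i) := fun i => by
    have e : ∀ ω, Y i ω ^ 2 = (1 - 2 * p i) * X i ω + p i ^ 2 := fun ω => by
      rcases h01 i ω with h | h <;> simp only [hY, h] <;> ring
    simp only [e]
    rw [integral_add ((hXi i).const_mul _) (integrable_const _), integral_const_mul, integral_const]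
    rw [probReal_univ, one_smul]
    show (1 - 2 * p i) * p i + p i ^ 2 = _
    ring
  obtain ⟨m1, m2, m4⟩ := moments P Y (fun i => p i * (1 - p i)) hYm hYi hYb hY0 hY2 S
  set s2 : ℝ := ∑ i ∈ S, p i * (1 - p i) with hs2
  have hs2' : 1 ≤ s2 := hv
  set s : ℝ := Real.sqrt s2 with hs
  have hspos : 0 < s := Real.sqrt_pos.2 (by linarith)
  have hsq : s ^ 2 = s2 := Real.sq_sqrt (by linarith)
  have hs4 : s ^ 4 = s2 ^ 2 := by rw [← hsq]; ring
  set T : Ω → ℝ := fun ω => ∑ i ∈ S, Y i ω with hT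
  have hTm : Measurable T := Finset.measurable_sum S fun i _ => hYm i
  have hTb : ∀ ω, |T ω| ≤ S.card := fun ω => by
    calc |T ω| ≤ ∑ i ∈ S, |Y i ω| := Finset.abs_sum_le_sum_abs _ _
      _ ≤ ∑ _i ∈ S, (1 : ℝ) := Finset.sum_le_sum fun i _ => hYb i ω
      _ = S.card := by simp
  have h4 : ∫ ω, T ω ^ 4 ∂P ≤ 4 * s ^ 4 := by
    rw [hs4]
    refine m4.trans ?_
    nlinarith
  constructor
  · exact tail P T S.card s hTm hTb hspos m1 (m2.trans hsq.symm) h4
  · have h := tail P (fun ω => -T ω) S.card s hTm.neg (fun ω => by rw [abs_neg]; exact hTb ω) hspos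
      (by rw [integral_neg, m1, neg_zero]) (by simp only [neg_sq]; exact m2.trans hsq.symm)
      (by
        have e : ∀ ω, (-T ω) ^ 4 = T ω ^ 4 := fun ω => by ring
        simp only [e]
        exact h4)
    refine h.trans (le_of_eq ?_)
    congr 1
    ext ω
    simp only [Set.mem_ofPred_eq]
    constructor
    · intro h5
      show T ω ≤ -(s / 8)
      linarith
    · intro h5
      have h6 : T ω ≤ -(s / 8) := h5
      linarith

end Pool.Agent.U408.NG

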